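import Pool.Agent.X276.Boom.D

set_option autoImplicit false

/-!
# Boomerang subgroups of Thompson's group `F` are normal

`F` is the group of orientation-preserving homeomorphisms (order automorphisms) of the unit
interval that are piecewise linear with finitely many breakpoints, all dyadic rationals, and all
slopes integer powers of two. A subgroup of `F` is a boomerang subgroup if and only if it is normal.

Proof. Let `D` be a boomerang subgroup containing `δ ≠ 1`, moving an interval `K` off itself, say to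
the right. For `η` supported in a small interval `I` in `K` take `α` supported in `K` moving `I` off
itself and return `δ` along the direction `ξ = (δ α δ⁻¹) (α η)`: the element
`δ⁻¹ ξ⁻ⁿ δ ξⁿ` of `D` agrees with `η` on `I`. Returning such elements for `η₁`, `η₂`, `η₁ η₂`
supported in `X ⊆ I` simultaneously along a direction `ε` supported in `I` that moves `X` off itself
gives `[η₁, η₂] ∈ D`. Finally a commutator `c` of `F` that is not in `D` is recurrent outside `D`
along every direction, but some direction moves `c` into commutators of elements supported in `X`.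
-/

namespace Pool.Agent.Results.MP_bd6a20_al.BoomerangNormal

open Boom Spr Set

/-- Thompson's group `F`, the group of all orientation-preserving piecewise linear homeomorphisms
of the unit interval with finitely many breakpoints, all dyadic, and slopes powers of two. -/
def ThompsonF : Subgroup (Icc (0 : ℝ) 1 ≃o Icc (0 : ℝ) 1) where
  carrier := {f | IsThompson f}
  mul_mem' := by
    intro f g hf hg
    have h1 := FR.mul_mem ((thompson_iff f).1 hf) ((thompson_iff g).1 hg)
    exact (thompson_iff (f * g)).2 (by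
      have h2 : ext (f * g) = ext f * ext g := extHom.map_mul f g
      rw [h2]; exact h1)
  one_mem' := (thompson_iff 1).2 (by
    have h2 : ext 1 = 1 := extHom.map_one
    rw [h2]; exact FR.one_mem)
  inv_mem' := by
    intro f hf
    have h1 := FR.inv_mem ((thompson_iff f).1 hf)
    exact (thompson_iff f⁻¹).2 (by
      have h2 : ext f⁻¹ = (ext f)⁻¹ := extHom.map_inv f
      rw [h2]; exact h1)

/-- `γ` is a recurrent direction for the subgroup `Δ` of `Γ`: for all finite sets `A` in `Δ` and
`B` outside `Δ` some conjugate `γ ^ n Δ γ ^ (-n)`, `n ≥ 1`, contains `A` and is disjoint from `B`. -/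
def RecurrentDirection {Γ : Type*} [Group Γ] (Δ : Subgroup Γ) (γ : Γ) : Prop :=
  ∀ A B : Finset Γ, (∀ a ∈ A, a ∈ Δ) → (∀ b ∈ B, b ∉ Δ) →
    ∃ n : ℕ, 1 ≤ n ∧ (∀ a ∈ A, a ∈ Δ.map (MulAut.conj (γ ^ n)).toMonoidHom) ∧
      (∀ b ∈ B, b ∉ Δ.map (MulAut.conj (γ ^ n)).toMonoidHom)

/-- A boomerang subgroup: every element of the group is a recurrent direction. -/
def IsBoomerang {Γ : Type*} [Group Γ] (Δ : Subgroup Γ) : Prop :=
  ∀ γ : Γ, RecurrentDirection Δ γ

theorem mem_map_conj {Γ : Type*} [Group Γ] (Δ : Subgroup Γ) (γ a : Γ) :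
    a ∈ Δ.map (MulAut.conj γ).toMonoidHom ↔ γ⁻¹ * a * γ ∈ Δ := by
  constructor
  · rintro ⟨x, hx, rfl⟩
    have : γ⁻¹ * (MulAut.conj γ).toMonoidHom x * γ = x := by
      show γ⁻¹ * (γ * x * γ⁻¹) * γ = x
      group
    rw [this]
    exact hx
  · intro h
    refine ⟨_, h, ?_⟩
    show γ * (γ⁻¹ * a * γ) * γ⁻¹ = a
    group

/-- A subgroup of Thompson's group `F` is a boomerang subgroup if and only if it is normal. -/
theorem result (Δ : Subgroup ThompsonF) : IsBoomerang Δ ↔ Δ.Normal := by
  classical
  constructor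
  · intro hΔ
    -- transport to the line
    let φ : ThompsonF →* G := extHom.comp ThompsonF.subtype
    have hφ : ∀ f : ThompsonF, φ f = ext f := fun f => rfl
    have hinj : Function.Injective φ := fun f g h => Subtype.ext (ext_inj h)
    have hφF : ∀ f : ThompsonF, φ f ∈ FR := fun f => (thompson_iff f).1 f.2
    have hsurj : ∀ q ∈ FR, ∃ f : ThompsonF, φ f = q := by
      intro q hq
      obtain ⟨f, hf⟩ := exists_res hq.2
      exact ⟨⟨f, (thompson_iff f).2 (hf ▸ hq)⟩, hf⟩
    set D : Subgroup G := Δ.map φ with hD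
    have hDF : D ≤ FR := by
      rintro _ ⟨f, -, rfl⟩
      exact hφF f
    have hmem : ∀ f : ThompsonF, φ f ∈ D ↔ f ∈ Δ := fun f =>
      ⟨fun ⟨g, hg, e⟩ => hinj e ▸ hg, fun h => ⟨f, h, rfl⟩⟩
    have hA : RetA D := by
      intro q hq A hAD
      obtain ⟨γ, rfl⟩ := hsurj q hq
      obtain ⟨n, hn, h1, -⟩ := hΔ γ (A.preimage φ hinj.injOn) ∅
        (fun a ha => (hmem a).1 (hAD _ (Finset.mem_preimage.1 ha))) (by simp)
      refine ⟨n, hn, fun a ha => ?_⟩
      obtain ⟨f, hf, rfl⟩ := hAD a ha
      have h2 := (mem_map_conj Δ (γ ^ n) f).1 (h1 f (Finset.mem_preimage.2 ha))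
      have h3 := (hmem _).2 h2
      rwa [map_mul, map_mul, map_inv, map_pow] at h3
    have hB : ∀ γ ∈ FR, ∀ b ∈ FR, b ∉ D → ∃ n : ℕ, 1 ≤ n ∧ (γ ^ n)⁻¹ * b * γ ^ n ∉ D := by
      intro q hq b hb hbD
      obtain ⟨γ, rfl⟩ := hsurj q hq
      obtain ⟨f, rfl⟩ := hsurj b hb
      obtain ⟨n, hn, -, h1⟩ := hΔ γ ∅ {f} (by simp) (by
        intro g hg
        rw [Finset.mem_singleton.1 hg]
        exact fun h => hbD ((hmem f).2 h))
      refine ⟨n, hn, fun h => ?_⟩
      apply h1 f (by simp)
      rw [mem_map_conj, ← hmem, map_mul, map_mul, map_inv, map_pow]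
      exact h
    have hcore := core hDF hA hB
    refine ⟨fun h hh g => ?_⟩
    have h1 := hcore (φ g) (hφF g) (φ h) ((hmem h).2 hh)
    rw [← hmem, map_mul, map_mul, map_inv]
    exact h1
  · intro hN γ A B hA hB
    refine ⟨1, le_rfl, fun a ha => ?_, fun b hb h => ?_⟩
    · rw [mem_map_conj]
      have := hN.conj_mem a (hA a ha) (γ ^ 1)⁻¹
      rwa [inv_inv] at this
    · rw [mem_map_conj] at h
      have := hN.conj_mem _ h (γ ^ 1)
      apply hB b hb
      have e : γ ^ 1 * ((γ ^ 1)⁻¹ * b * γ ^ 1) * (γ ^ 1)⁻¹ = b := by group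
      rwa [e] at this

end Pool.Agent.Results.MP_bd6a20_al.BoomerangNormal
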